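import Mathlib
import Pool.Agent.H5.LpNull

open Filter Topology
open scoped BoundedContinuousFunction

namespace Pool.Agent.Results.MP_8a0948_an.QMeasure

/-- real bounded sequences -/
abbrev Linf := lp (fun _ : ℕ => ℝ) ⊤

/-- a bounded real sequence as an element of `Linf` -/
def mk (g : ℕ → ℝ) (C : ℝ) (h : ∀ n, ‖g n‖ ≤ C) : Linf :=
  ⟨g, memℓp_infty ⟨C, by rintro _ ⟨n, rfl⟩; exact h n⟩⟩

/-- the indicator sequence of a set -/
noncomputable def ind (A : Set ℕ) : Linf :=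
  mk (A.indicator 1) 1 fun n => by by_cases h : n ∈ A <;> simp [h]

/-- the dual space -/
abbrev Dl (Y : Type) [NormedAddCommGroup Y] [NormedSpace ℝ Y] := StrongDual ℝ Y

/-- the value of a functional at a vector -/
def app {Y : Type} [NormedAddCommGroup Y] [NormedSpace ℝ Y] (f : Dl Y) (y : Y) : ℝ := f y

/-- the measure `A ↦ m (ind A)` takes values in `[0,1]` and vanishes on finite sets -/
def IsMeasure (m : Dl Linf) : Prop :=
  (∀ A, app m (ind A) ∈ Set.Icc (0 : ℝ) 1) ∧ ∀ A : Set ℕ, A.Finite → app m (ind A) = 0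

/-- `ε`-strong Q-measure -/
def StrongQ (ε : ℝ) (m : Dl Linf) : Prop :=
  IsMeasure m ∧ ∀ P : ℕ → Set ℕ, (∀ n, (P n).Finite) → Pairwise (fun i j => Disjoint (P i) (P j)) →
    ⋃ n, P n = Set.univ → ∃ A : Set ℕ, (∀ n, (A ∩ P n).Subsingleton) ∧ ε ≤ app m (ind A)

/-- L-orthogonal sequence -/
def LOrth {X : Type} [NormedAddCommGroup X] (x : ℕ → X) : Prop :=
  (∀ n, ‖x n‖ ≤ 1) ∧ ∀ v, Tendsto (fun n => ‖v + x n‖) atTop (𝓝 (1 + ‖v‖))

/-- `z` is the `m`-limit of the sequence `x` -/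
def IsLim {X : Type} [NormedAddCommGroup X] [NormedSpace ℝ X] (m : Dl Linf) (x : ℕ → X)
    (z : Dl (Dl X)) : Prop :=
  ∀ (f : Dl X) (g : Linf), (∀ n, g n = app f (x n)) → app z f = app m g

/-- `w` is the sum `v + z` in the bidual -/
def IsSum {X : Type} [NormedAddCommGroup X] [NormedSpace ℝ X] (v : X) (z w : Dl (Dl X)) : Prop :=
  ∀ f : Dl X, app w f = app f v + app z f

/-- the norm of the bidual -/
noncomputable def bnorm {X : Type} [NormedAddCommGroup X] [NormedSpace ℝ X] (z : Dl (Dl X)) : ℝ :=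
  ‖z‖

/-- the statement asked for in Q1 -/
def Q1 : Prop :=
  ∀ ε > 0, ∀ m, StrongQ ε m → ∀ (X : Type) [NormedAddCommGroup X] [NormedSpace ℝ X]
    [CompleteSpace X] (x : ℕ → X), LOrth x → ∀ z, IsLim m x z → ∀ (v : X) (w : Dl (Dl X)),
      IsSum v z w → ‖v‖ + ε * bnorm z ≤ bnorm w

theorem nle (g : Linf) (n : ℕ) : ‖g n‖ ≤ ‖g‖ := lp.norm_apply_le_norm ENNReal.top_ne_zero g n

theorem limfun (u : Ultrafilter ℕ) (a : ℕ → Linf →ₗ[ℝ] ℝ) (ha : ∀ n g, ‖a n g‖ ≤ ‖g‖) :
    ∃ m : Linf →L[ℝ] ℝ, ∀ g, Tendsto (fun n => a n g) u (𝓝 (m g)) := by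
  have h : ∀ g : Linf, ∃ L, Tendsto (fun n => a n g) u (𝓝 L) := fun g => by
    obtain ⟨L, -, hL⟩ := (isCompact_Icc (a := -‖g‖) (b := ‖g‖)).ultrafilter_le_nhds
      (Ultrafilter.map (fun n => a n g) u) (by
        rw [Ultrafilter.coe_map, le_principal_iff, Filter.mem_map]
        exact Eventually.of_forall fun n => abs_le.1 (ha n g))
    exact ⟨L, hL⟩
  choose L hL using h
  refine ⟨LinearMap.mkContinuous ⟨⟨L, fun S T => ?_⟩, fun c T => ?_⟩ 1 fun T => ?_, hL⟩
  · exact tendsto_nhds_unique (hL (S + T)) (by simpa using (hL S).add (hL T))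
  · exact tendsto_nhds_unique (hL (c • T)) (by simpa using (hL T).const_mul c)
  · rw [one_mul]
    exact le_of_tendsto' (hL T).norm fun n => ha n T

noncomputable def avg (N : ℕ) : Linf →ₗ[ℝ] ℝ where
  toFun g := (N : ℝ)⁻¹ * ∑ n ∈ Finset.range N, g n
  map_add' g h := by simp [Finset.sum_add_distrib, mul_add]
  map_smul' c g := by
    simp only [lp.coeFn_smul, Pi.smul_apply, smul_eq_mul, RingHom.id_apply, ← Finset.mul_sum]
    ring

theorem avg_apply (N : ℕ) (g : Linf) : avg N g = (N : ℝ)⁻¹ * ∑ n ∈ Finset.range N, g n := rfl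

theorem avg_le (N : ℕ) (g : Linf) (C : ℝ) (hC : 0 ≤ C) (h : ∀ n, g n ≤ C) : avg N g ≤ C := by
  rw [avg_apply]
  have h1 : ∑ n ∈ Finset.range N, g n ≤ N * C := by
    simpa using Finset.sum_le_card_nsmul (Finset.range N) _ C fun n _ => h n
  rcases Nat.eq_zero_or_pos N with rfl | hN
  · simpa using hC
  · rw [inv_mul_le_iff₀ (by exact_mod_cast hN)]
    exact h1

theorem avg_norm (N : ℕ) (g : Linf) : ‖avg N g‖ ≤ ‖g‖ := by
  rw [Real.norm_eq_abs, abs_le, neg_le, ← map_neg]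
  exact ⟨avg_le N _ _ (norm_nonneg _) fun n => (neg_le_abs (g n)).trans (nle g n),
    avg_le N _ _ (norm_nonneg _) fun n => (le_abs_self (g n)).trans (nle g n)⟩

theorem mean : ∃ m : Linf →L[ℝ] ℝ, IsMeasure m ∧
    ∀ g L, Tendsto (fun N => avg N g) atTop (𝓝 L) → m g = L := by
  obtain ⟨m, hm⟩ := limfun (hyperfilter ℕ) avg avg_norm
  have key : ∀ g L, Tendsto (fun N => avg N g) atTop (𝓝 L) → m g = L := fun g L h =>
    tendsto_nhds_unique (hm g) (h.mono_left Pool.Agent.H5.LpNull.U_le)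
  have hi : ∀ (A : Set ℕ) n, ind A n = A.indicator 1 n := fun _ _ => rfl
  refine ⟨m, ⟨fun A => ⟨ge_of_tendsto' (hm _) fun N => ?_, le_of_tendsto' (hm _) fun N => ?_⟩,
    fun A hA => key _ _ ?_⟩, key⟩
  · rw [avg_apply]
    refine mul_nonneg (by positivity) (Finset.sum_nonneg fun n _ => ?_)
    rw [hi]
    by_cases h : n ∈ A <;> simp [h]
  · refine avg_le N _ 1 zero_le_one fun n => ?_
    rw [hi]
    by_cases h : n ∈ A <;> simp [h]
  · refine Filter.Tendsto.cesaro (tendsto_const_nhds.congr' ?_)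
    rw [← Nat.cofinite_eq_atTop]
    filter_upwards [hA.compl_mem_cofinite] with n hn
    rw [hi, Set.indicator_of_notMem hn]

def D : Set (ℕ → ℝ) :=
  {s | (∀ n, |s n| ≤ 1) ∧ ∀ N : ℕ, |N + ∑ n ∈ Finset.range N, s n| ≤ √N}

theorem D0 : (fun _ => -1) ∈ D := ⟨fun _ => by simp, fun N => by simp⟩

noncomputable def xx (n : ℕ) : D →ᵇ ℝ :=
  BoundedContinuousFunction.ofNormedAddCommGroup (fun s => s.1 n)
    ((continuous_apply n).comp continuous_subtype_val) 1 fun s => s.2.1 n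

theorem xx_norm (n : ℕ) : ‖xx n‖ ≤ 1 :=
  (BoundedContinuousFunction.norm_le zero_le_one).2 fun s => s.2.1 n

theorem near (s : D) (c : ℝ) (hc : |c| ≤ 1) {W : Set D} (hW : W ∈ 𝓝 s) :
    ∀ᶠ n in atTop, ∃ s' ∈ W, s'.1 n = c := by
  obtain ⟨O, hO, hOW⟩ := mem_nhds_subtype_iff_nhdsWithin.1 hW |> mem_nhdsWithin_iff_exists_mem_nhds_inter.1
  obtain ⟨O', hO', hOo, hs⟩ := mem_nhds_iff.1 hO
  have h1 : Tendsto (fun η : ℝ => fun n => (1 - η) * s.1 n - η) (𝓝 0)
      (𝓝 fun n => (1 - 0) * s.1 n - 0) :=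
    tendsto_pi_nhds.2 fun n => ((tendsto_const_nhds.sub tendsto_id).mul_const _).sub tendsto_id
  simp only [sub_zero, one_mul] at h1
  obtain ⟨η, ⟨h2, h3⟩, h4⟩ := (((h1.eventually (hOo.mem_nhds hs)).and
    (gt_mem_nhds one_pos)).filter_mono (nhdsWithin_le_nhds (s := Set.Ioi 0)) |>.and
      eventually_mem_nhdsWithin).exists
  have h4 : 0 < η := h4
  have h3 : η < 1 := h3
  set t : ℕ → ℝ := fun n => (1 - η) * s.1 n - η with ht
  have ht1 : ∀ n, |t n| ≤ 1 := fun n => by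
    have := abs_le.1 (s.2.1 n)
    rw [abs_le]
    constructor <;> simp only [ht] <;> nlinarith
  have ht2 : ∀ N : ℕ, |N + ∑ n ∈ Finset.range N, t n| ≤ (1 - η) * √N := fun N => by
    have h5 : N + ∑ n ∈ Finset.range N, t n = (1 - η) * (N + ∑ n ∈ Finset.range N, s.1 n) := by
      simp only [ht, Finset.sum_sub_distrib, ← Finset.mul_sum, Finset.sum_const, Finset.card_range,
        nsmul_eq_mul]
      ring
    rw [h5, abs_mul, abs_of_nonneg (by linarith)]
    exact mul_le_mul_of_nonneg_left (s.2.2 N) (by linarith)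
  have h5 : Tendsto (fun n => Function.update t n c) atTop (𝓝 t) :=
    tendsto_pi_nhds.2 fun j => tendsto_const_nhds.congr' (by
      filter_upwards [eventually_gt_atTop j] with n hn
      rw [Function.update_of_ne hn.ne])
  have h6 : Tendsto (fun n : ℕ => η * √n) atTop atTop :=
    (Real.tendsto_sqrt_atTop.comp tendsto_natCast_atTop_atTop).const_mul_atTop h4
  filter_upwards [h5.eventually (hOo.mem_nhds h2), h6.eventually_ge_atTop 2] with n h7 h8
  have hD : Function.update t n c ∈ D := by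
    refine ⟨fun j => ?_, fun N => ?_⟩
    · by_cases hj : j = n
      · rw [hj, Function.update_self]
        exact hc
      · rw [Function.update_of_ne hj]
        exact ht1 j
    · have h9 := ht2 N
      have h10 := mul_nonneg h4.le (Real.sqrt_nonneg N)
      by_cases hn : n ∈ Finset.range N
      · rw [Finset.sum_update_of_mem hn]
        rw [Finset.sum_eq_add_sum_sdiff_singleton_of_mem hn] at h9
        have h11 : η * √n ≤ η * √N := by
          gcongr
          exact (Finset.mem_range.1 hn).le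
        have a1 := abs_le.1 h9
        have a2 := abs_le.1 hc
        have a3 := abs_le.1 (ht1 n)
        rw [abs_le]
        constructor <;> linarith
      · rw [Finset.sum_update_of_notMem hn]
        linarith
  obtain ⟨s', hs', hs''⟩ := hOW ⟨hO' h7, hD⟩
  exact ⟨s', hs', by rw [hs'', Function.update_self]⟩

theorem lorth : LOrth xx := by
  refine ⟨xx_norm, fun v => ?_⟩
  haveI : Nonempty D := ⟨⟨_, D0⟩⟩
  rw [tendsto_order]
  refine ⟨fun a ha => ?_, fun a ha => Eventually.of_forall fun n => ?_⟩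
  · obtain ⟨s, hs⟩ : ∃ s, a - 1 < |v s| := by
      by_contra h
      push Not at h
      have := (BoundedContinuousFunction.norm_le_of_nonempty (f := v)).2 h
      linarith
    rcases lt_abs.1 hs with h | h
    · filter_upwards [near s 1 (by simp) ((isOpen_lt continuous_const v.continuous).mem_nhds h)]
        with n ⟨s', h1, h2⟩
      have h3 := (le_abs_self _).trans ((v + xx n).norm_coe_le_norm s')
      have h4 : (v + xx n) s' = v s' + s'.1 n := rfl
      have h5 : a - 1 < v s' := h1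
      linarith
    · filter_upwards [near s (-1) (by simp)
        ((isOpen_lt continuous_const v.continuous.neg).mem_nhds h)] with n ⟨s', h1, h2⟩
      have h3 := (neg_le_abs _).trans ((v + xx n).norm_coe_le_norm s')
      have h4 : (v + xx n) s' = v s' + s'.1 n := rfl
      have h5 : a - 1 < -v s' := h1
      linarith
  · linarith [norm_add_le v (xx n), xx_norm n]

theorem xx_avg :
    Tendsto (fun N : ℕ => (N : ℝ)⁻¹ • ∑ n ∈ Finset.range N, xx n) atTop (𝓝 (-1)) := by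
  rw [tendsto_iff_norm_sub_tendsto_zero]
  have h2 : Tendsto (fun N : ℕ => (√N)⁻¹) atTop (𝓝 0) :=
    (Real.tendsto_sqrt_atTop.comp tendsto_natCast_atTop_atTop).inv_tendsto_atTop
  refine squeeze_zero' (Eventually.of_forall fun _ => norm_nonneg _) ?_ h2
  filter_upwards [eventually_gt_atTop 0] with N hN
  have hN' : (0 : ℝ) < N := by exact_mod_cast hN
  refine (BoundedContinuousFunction.norm_le (by positivity)).2 fun s => ?_
  have h3 : ((N : ℝ)⁻¹ • ∑ n ∈ Finset.range N, xx n - -1) s =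
      (N : ℝ)⁻¹ * (N + ∑ n ∈ Finset.range N, s.1 n) := by
    simp only [sub_neg_eq_add, BoundedContinuousFunction.coe_add, Pi.add_apply,
      BoundedContinuousFunction.coe_smul, BoundedContinuousFunction.coe_sum, Finset.sum_apply,
      BoundedContinuousFunction.coe_one, Pi.one_apply, smul_eq_mul]
    have : ∑ n ∈ Finset.range N, xx n s = ∑ n ∈ Finset.range N, s.1 n := rfl
    rw [this]
    field_simp
    ring
  rw [h3, norm_mul, norm_inv, Real.norm_natCast, inv_mul_le_iff₀ hN']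
  refine (s.2.2 N).trans (le_of_eq ?_)
  have := Real.sqrt_pos.2 hN'
  field_simp
  exact Real.sq_sqrt hN'.le

section Gen

variable {X : Type} [NormedAddCommGroup X] [NormedSpace ℝ X]

noncomputable def adj (x : ℕ → X) (hx : ∀ n, ‖x n‖ ≤ 1) : StrongDual ℝ X →L[ℝ] Linf :=
  LinearMap.mkContinuous
    ⟨⟨fun f : StrongDual ℝ X => mk (fun n => f (x n)) ‖f‖ fun n => f.unit_le_opNorm _ (hx n),
      fun _ _ => rfl⟩, fun _ _ => rfl⟩ 1 fun f : StrongDual ℝ X => by
      rw [one_mul]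
      exact lp.norm_le_of_forall_le (norm_nonneg _) fun n => f.unit_le_opNorm _ (hx n)

theorem adj_norm (x : ℕ → X) (hx : ∀ n, ‖x n‖ ≤ 1) (f : StrongDual ℝ X) : ‖adj x hx f‖ ≤ ‖f‖ :=
  lp.norm_le_of_forall_le (norm_nonneg _) fun n => f.unit_le_opNorm _ (hx n)

theorem main [CompleteSpace X] (x : ℕ → X) (hx : LOrth x) (y : X) (hy : ‖y‖ = 1)
    (hxy : Tendsto (fun N : ℕ => (N : ℝ)⁻¹ • ∑ n ∈ Finset.range N, x n) atTop (𝓝 (-y)))
    (ε : ℝ) (hε : 0 < ε) (m : Linf →L[ℝ] ℝ) (hm : StrongQ ε m) : ¬ Q1 := by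
  intro h
  have ha : ∀ f, Tendsto (fun N => avg N (adj x hx.1 f)) atTop (𝓝 (-f y)) := fun f => by
    have h2 := (f.continuous.tendsto _).comp hxy
    rw [map_neg] at h2
    refine h2.congr fun N => ?_
    simp only [Function.comp, map_smul, map_sum, smul_eq_mul]
    rfl
  obtain ⟨w, hw, hw'⟩ := mean
  set s : ℝ := 1 / (4 * (‖m‖ + 1)) with hs
  have hs0 : 0 < s := by positivity
  have hs1 : s * (‖m‖ + 1) = 1 / 4 := by
    rw [hs]
    field_simp
  have hs2 := mul_nonneg hs0.le (norm_nonneg m)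
  have h1 := h (s * ε) (by positivity) (s • m + (1 / 2 : ℝ) • w) ⟨⟨fun A => ?_, fun A hA => ?_⟩,
    fun P h1 h2 h3 => ?_⟩ X x hx ((s • m + (1 / 2 : ℝ) • w).comp (adj x hx.1))
    (fun f g hg => ?_) ((1 / 2 : ℝ) • y) (NormedSpace.inclusionInDoubleDual ℝ X ((1 / 2 : ℝ) • y) +
        (s • m + (1 / 2 : ℝ) • w).comp (adj x hx.1)) fun _ => rfl
  · rw [norm_smul, hy, Real.norm_of_nonneg (by norm_num), bnorm, bnorm] at h1
    have h2 : ‖NormedSpace.inclusionInDoubleDual ℝ X ((1 / 2 : ℝ) • y) +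
        (s • m + (1 / 2 : ℝ) • w).comp (adj x hx.1)‖ ≤ s * ‖m‖ := by
      refine ContinuousLinearMap.opNorm_le_bound _ hs2 fun f => ?_
      have h3 : (NormedSpace.inclusionInDoubleDual ℝ X ((1 / 2 : ℝ) • y) +
          (s • m + (1 / 2 : ℝ) • w).comp (adj x hx.1)) f =
          f ((1 / 2 : ℝ) • y) + (s * m (adj x hx.1 f) + 1 / 2 * w (adj x hx.1 f)) := rfl
      rw [h3, hw' _ _ (ha f), map_smul, smul_eq_mul,
        show 1 / 2 * f y + (s * m (adj x hx.1 f) + 1 / 2 * -f y) = s * m (adj x hx.1 f) by ring,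
        norm_mul, Real.norm_of_nonneg hs0.le, mul_assoc]
      refine mul_le_mul_of_nonneg_left ((m.le_opNorm _).trans ?_) hs0.le
      exact mul_le_mul_of_nonneg_left (adj_norm x hx.1 f) (norm_nonneg _)
    have h3 := mul_nonneg (mul_pos hs0 hε).le
      (norm_nonneg ((s • m + (1 / 2 : ℝ) • w).comp (adj x hx.1)))
    have h4 := h1.trans h2
    linarith
  · have h1 := hm.1.1 A
    have h2 := hw.1 A
    change s * app m (ind A) + 1 / 2 * app w (ind A) ∈ _
    constructor <;> nlinarith [h1.1, h1.2, h2.1, h2.2]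
  · change s * app m (ind A) + 1 / 2 * app w (ind A) = 0
    rw [hm.1.2 A hA, hw.2 A hA]
    ring
  · obtain ⟨A, hA, hA'⟩ := hm.2 P h1 h2 h3
    refine ⟨A, hA, ?_⟩
    change _ ≤ s * app m (ind A) + 1 / 2 * app w (ind A)
    nlinarith [(hw.1 A).1]
  · have : g = adj x hx.1 f := by
      ext n
      exact hg n
    rw [this]
    rfl

end Gen

def Part (P : ℕ → Set ℕ) : Prop :=
  (∀ n, (P n).Finite) ∧ Pairwise (fun i j => Disjoint (P i) (P j)) ∧ ⋃ n, P n = Set.univ

theorem step (F : Filter ℕ) [F.NeBot] [F.IsCountablyGenerated] (hF : F ≤ cofinite)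
    (P : ℕ → Set ℕ) : ∃ B : Set ℕ, (cofinite ⊓ 𝓟 B).NeBot ∧ cofinite ⊓ 𝓟 B ≤ F ∧
      (Part P → ∀ n, (B ∩ P n).Subsingleton) := by
  obtain ⟨x, hx⟩ := F.exists_seq_tendsto
  obtain ⟨c, hc, hc'⟩ : ∃ c : ℕ → ℕ, Tendsto c cofinite atTop ∧
      (Part P → ∀ n, ∀ k ∈ P n, c k = n) := by
    by_cases hP : Part P
    · have h1 : ∀ k, ∃ n, k ∈ P n := fun k => Set.mem_iUnion.1 (hP.2.2 ▸ Set.mem_univ k)
      choose c hc using h1
      refine ⟨c, ?_, fun _ n k hk => ?_⟩
      · rw [← Nat.cofinite_eq_atTop]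
        exact Tendsto.cofinite_of_finite_preimage_singleton fun n =>
          ((hP.1 n).subset fun k hk => by
            have : c k = n := hk
            exact this ▸ hc k).to_subtype
      · by_contra h
        exact Set.disjoint_left.1 (hP.2.1 h) (hc k) hk
    · exact ⟨id, Nat.cofinite_eq_atTop ▸ tendsto_id, fun h => absurd h hP⟩
  obtain ⟨k, hk1, hk2⟩ := strictMono_subseq_of_tendsto_atTop (hc.comp (hx.mono_right hF))
  have h1 : Tendsto (x ∘ k) atTop F := hx.comp hk1.tendsto_atTop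
  refine ⟨Set.range (x ∘ k), ?_, fun s hs => ?_, fun hP n => ?_⟩
  · have h2 : Tendsto (x ∘ k) atTop (cofinite ⊓ 𝓟 (Set.range (x ∘ k))) :=
      tendsto_inf.2 ⟨h1.mono_right hF,
        tendsto_principal.2 (Eventually.of_forall fun n => ⟨n, rfl⟩)⟩
    exact h2.neBot
  · rw [mem_inf_principal, mem_cofinite]
    have h2 := h1 hs
    rw [← Nat.cofinite_eq_atTop, mem_map, mem_cofinite] at h2
    refine (h2.image (x ∘ k)).subset fun a ha => ?_
    simp only [Set.mem_compl_iff, Set.mem_ofPred_eq, Classical.not_imp] at ha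
    obtain ⟨⟨n, rfl⟩, ha⟩ := ha
    exact ⟨n, ha, rfl⟩
  · rintro _ ⟨⟨i, rfl⟩, hi⟩ _ ⟨⟨j, rfl⟩, hj⟩
    have : i = j := hk2.injective ((hc' hP n _ hi).trans (hc' hP n _ hj).symm)
    rw [this]

theorem qpoint (h : Cardinal.continuum.{0} = Cardinal.aleph 1) : ∃ u : Ultrafilter ℕ,
    (u : Filter ℕ) ≤ cofinite ∧ ∀ P, Part P → ∃ A ∈ u, ∀ n, (A ∩ P n).Subsingleton := by
  let I := (Cardinal.aleph.{0} 1).ord.ToType
  have h1 : Cardinal.mk I = Cardinal.mk (ℕ → Set ℕ) := by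
    simp [I, ← h]
  obtain ⟨e⟩ := Cardinal.eq.1 h1
  have hc : ∀ i : I, (Set.Iio i).Countable := fun i => by
    have h2 : Cardinal.mk (Set.Iio i) < Cardinal.aleph 1 := by
      simpa [I] using Cardinal.mk_Iio_lt i
    rw [← Cardinal.le_aleph0_iff_set_countable, ← Order.lt_succ_iff, Cardinal.succ_aleph0]
    exact h2
  let good : ∀ i : I, (∀ j, j < i → Set ℕ) → Set ℕ → Prop := fun i prev B =>
    (cofinite ⊓ 𝓟 B).NeBot ∧ (∀ j (hj : j < i), cofinite ⊓ 𝓟 B ≤ 𝓟 (prev j hj)) ∧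
      (Part (e i) → ∀ n, (B ∩ e i n).Subsingleton)
  let A : I → Set ℕ := WellFounded.fix wellFounded_lt fun i prev => Classical.epsilon (good i prev)
  have hA : ∀ i, A i = Classical.epsilon (good i fun j _ => A j) := fun i =>
    WellFounded.fix_eq _ _ i
  have dir : ∀ S : Set I, (∀ i ∈ S, good i (fun j _ => A j) (A i)) →
      (cofinite ⊓ ⨅ j : S, cofinite ⊓ 𝓟 (A j)).NeBot := by
    intro S hS
    rcases S.eq_empty_or_nonempty with rfl | ⟨i0, hi0⟩
    · rw [iInf_of_empty, inf_top_eq]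
      infer_instance
    · have h2 : (⨅ j : S, cofinite ⊓ 𝓟 (A j)).NeBot := by
        refine iInf_neBot_of_directed (fun a b => ?_) fun j => (hS j j.2).1
        rcases lt_trichotomy a.1 b.1 with hab | hab | hab
        · exact ⟨b, le_inf inf_le_left ((hS b b.2).2.1 a hab), le_rfl⟩
        · exact ⟨b, by rw [hab], le_rfl⟩
        · exact ⟨a, le_rfl, le_inf inf_le_left ((hS a a.2).2.1 b hab)⟩
      exact h2.mono (le_inf ((iInf_le _ ⟨i0, hi0⟩).trans inf_le_left) le_rfl)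
  have key : ∀ i, good i (fun j _ => A j) (A i) := by
    intro i
    induction i using WellFoundedLT.induction with
    | ind i ih =>
    rw [hA i]
    apply Classical.epsilon_spec
    haveI := dir (Set.Iio i) ih
    haveI := (hc i).to_subtype
    haveI : (cofinite : Filter ℕ).IsCountablyGenerated := by
      rw [Nat.cofinite_eq_atTop]
      infer_instance
    obtain ⟨B, b1, b2, b3⟩ := step (cofinite ⊓ ⨅ j : Set.Iio i, cofinite ⊓ 𝓟 (A j)) inf_le_left (e i)
    exact ⟨B, b1, fun j hj => b2.trans (inf_le_right.trans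
      ((iInf_le _ (⟨j, hj⟩ : Set.Iio i)).trans inf_le_right)), b3⟩
  haveI := dir Set.univ fun i _ => key i
  refine ⟨Ultrafilter.of (cofinite ⊓ ⨅ j : (Set.univ : Set I), cofinite ⊓ 𝓟 (A j)),
    (Ultrafilter.of_le _).trans inf_le_left, fun P hP => ?_⟩
  obtain ⟨i, rfl⟩ := e.surjective P
  refine ⟨A i, ?_, (key i).2.2 hP⟩
  exact le_principal_iff.1 ((Ultrafilter.of_le _).trans (inf_le_right.trans
    ((iInf_le _ (⟨i, trivial⟩ : (Set.univ : Set I))).trans inf_le_right)))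

theorem result : (Q1 ↔ ¬ ∃ ε > 0, ∃ m, StrongQ ε m) ∧
    (Cardinal.continuum.{0} = Cardinal.aleph 1 → ¬ Q1) := by
  haveI : Nonempty D := ⟨⟨_, D0⟩⟩
  have h1 := main xx lorth 1 norm_one xx_avg
  refine ⟨⟨fun h ⟨ε, hε, m, hm⟩ => h1 ε hε m hm h, fun h ε hε m hm => absurd ⟨ε, hε, m, hm⟩ h⟩,
    fun h => ?_⟩
  obtain ⟨u, hu, hu'⟩ := qpoint h
  obtain ⟨m, hm⟩ := limfun u (fun n => lp.evalₗ _ ⊤ n) fun n g => nle g n
  have h2 : ∀ A ∈ u, app m (ind A) = 1 := fun A hA =>
    tendsto_nhds_unique (hm _) (tendsto_const_nhds.congr' (by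
      filter_upwards [hA] with n hn
      exact (Set.indicator_of_mem hn (1 : ℕ → ℝ)).symm))
  have h3 : ∀ A, Aᶜ ∈ u → app m (ind A) = 0 := fun A hA =>
    tendsto_nhds_unique (hm _) (tendsto_const_nhds.congr' (by
      filter_upwards [hA] with n hn
      exact (Set.indicator_of_notMem hn (1 : ℕ → ℝ)).symm))
  refine h1 1 one_pos m ⟨⟨fun A => ?_, fun A hA => h3 A (hu hA.compl_mem_cofinite)⟩,
    fun P p1 p2 p3 => ?_⟩
  · rcases u.mem_or_compl_mem A with hA | hA
    · rw [h2 A hA]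
      exact ⟨zero_le_one, le_rfl⟩
    · rw [h3 A hA]
      exact ⟨le_rfl, zero_le_one⟩
  · obtain ⟨A, hA, hA'⟩ := hu' P ⟨p1, p2, p3⟩
    exact ⟨A, hA', (h2 A hA).ge⟩

end Pool.Agent.Results.MP_8a0948_an.QMeasure
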